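import Pool.Agent.Results.MP_afcf00_al.QuasiIsometryNotAffine

set_option autoImplicit false

/-!
# Continuum many quasi-isometries of the quaternionic Heisenberg group, inequivalent under
composition with generalized affine maps on both sides
-/

namespace Pool.Agent.Results.MP_afcf00_al.DoubleCosets

open Pool.Agent.H808R3.QH Pool.Agent.Results.MP_afcf00_al.QuasiIsometryNotAffine

variable {n : ℕ}

/-- The map `x ↦ x · exp(l(x) u)`, where `u` is the unit vector `i` of the centre. -/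
noncomputable def twist (l : N n → ℝ) (x : N n) : N n := x * cen (l x • u)

/-- `l` is large scale Lipschitz for the Carnot metric. -/
def LSL (l : N n → ℝ) : Prop := ∃ L A : ℝ, ∀ x y, |l x - l y| ≤ L * carnotDist x y + A

lemma twist_diff (l : N n → ℝ) (x y : N n) :
    (twist l x)⁻¹ * twist l y = (x⁻¹ * y) * cen ((l y - l x) • u) := by
  unfold twist
  rw [mul_inv_rev, cen_inv]
  calc cen (-(l x • u)) * x⁻¹ * (y * cen (l y • u))
      = x⁻¹ * (cen (-(l x • u)) * y) * cen (l y • u) := by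
        rw [cen_comm]; simp only [mul_assoc]
    _ = x⁻¹ * y * (cen (-(l x • u)) * cen (l y • u)) := by
        rw [cen_comm]; simp only [mul_assoc]
    _ = _ := by
        rw [cen_mul]
        congr 2
        module

/-- a large scale Lipschitz function has constants at least `1` -/
lemma LSL.exists_ge (hn : 1 ≤ n) {l : N n → ℝ} (hl : LSL l) :
    ∃ L : ℝ, 1 ≤ L ∧ ∀ x y, |l x - l y| ≤ L * carnotDist x y + L := by
  obtain ⟨L, A, h⟩ := hl
  refine ⟨max (max L A) 1, le_max_right _ _, fun x y => (h x y).trans ?_⟩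
  have h1 : L ≤ max (max L A) 1 := (le_max_left _ _).trans (le_max_left _ _)
  have h2 : A ≤ max (max L A) 1 := (le_max_right _ _).trans (le_max_left _ _)
  have h3 := mul_le_mul_of_nonneg_right h1 (dist_nonneg' hn x y)
  linarith

lemma twist_upper (hn : 1 ≤ n) {l : N n → ℝ} {L : ℝ} (hL : 1 ≤ L)
    (h : ∀ x y, |l x - l y| ≤ L * carnotDist x y + L) (x y : N n) :
    carnotDist (twist l x) (twist l y) ≤ (1 + 3 * L) * carnotDist x y + 9 * L := by
  have h0 := dist_nonneg' hn x y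
  have h1 : carnotDist (twist l x) (twist l y) ≤
      carnotDist x y + 3 * Real.sqrt (L * carnotDist x y + L) := by
    have e := twist_diff l x y
    unfold carnotDist
    rw [e]
    have h2 := carnotLen_mul hn (x⁻¹ * y) (cen ((l y - l x) • u))
    have h3 := len_cen_smul hn (l y - l x) (n := n)
    have h4 := Real.sqrt_le_sqrt (h y x)
    have h5 : carnotDist y x = carnotDist x y := by
      unfold carnotDist
      rw [← carnotLen_inv hn (x⁻¹ * y), mul_inv_rev, inv_inv]
    rw [h5] at h4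
    unfold carnotDist at h4
    linarith
  have h2 := sqrt_le_half (L * carnotDist x y + L) (by positivity) 1 one_pos
  have h3 : 0 ≤ L * carnotDist x y := by positivity
  linarith

lemma twist_lower (hn : 1 ≤ n) {l : N n → ℝ} {L : ℝ} (hL : 1 ≤ L)
    (h : ∀ x y, |l x - l y| ≤ L * carnotDist x y + L) (x y : N n) :
    carnotDist x y / 2 - 9 * L ≤ carnotDist (twist l x) (twist l y) := by
  have h0 := dist_nonneg' hn x y
  have h1 : carnotDist x y ≤ carnotDist (twist l x) (twist l y) +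
      3 * Real.sqrt (L * carnotDist x y + L) := by
    have e : x⁻¹ * y = ((twist l x)⁻¹ * twist l y) * (cen (-((l y - l x) • u))) := by
      rw [twist_diff, mul_assoc, cen_mul, add_neg_cancel]
      have : (cen 0 : N n) = 1 := rfl
      rw [this, mul_one]
    have h2 := carnotLen_mul hn ((twist l x)⁻¹ * twist l y) (cen (-((l y - l x) • u)))
    rw [← e, ← cen_inv, carnotLen_inv hn] at h2
    have h3 := len_cen_smul hn (l y - l x) (n := n)
    have h4 := Real.sqrt_le_sqrt (h y x)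
    have h5 : carnotDist y x = carnotDist x y := by
      unfold carnotDist
      rw [← carnotLen_inv hn (x⁻¹ * y), mul_inv_rev, inv_inv]
    rw [h5] at h4
    unfold carnotDist at *
    linarith
  have h2 := sqrt_le_half (L * carnotDist x y + L) (by positivity) (3 * L) (by positivity)
  have h3 : (L * carnotDist x y + L) / (2 * (3 * L)) = carnotDist x y / 6 + 1 / 6 := by
    field_simp
    norm_num
  rw [h3] at h2
  linarith

lemma twist_surj (hn : 1 ≤ n) {l : N n → ℝ} {L : ℝ} (hL : 1 ≤ L) (h0 : ∀ x, 0 ≤ l x)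
    (h : ∀ x y, |l x - l y| ≤ L * carnotDist x y + L) (y : N n) :
    ∃ x, carnotDist (twist l x) y ≤ 9 * L := by
  set g : ℕ → ℝ := fun k => l (y * cen ((-(k : ℝ)) • u)) - k with hg
  have hd : ∀ z : ImH, carnotDist (y * cen z) y = carnotLen (cen z : N n) := by
    intro z
    unfold carnotDist
    rw [mul_inv_rev, mul_assoc, inv_mul_cancel, mul_one, carnotLen_inv hn]
  have hstep : ∀ k, g k ≤ g (k + 1) + (4 * L + 1) := by
    intro k
    have e : y * cen ((-(k : ℝ)) • u) = (y * cen ((-((k + 1 : ℕ) : ℝ)) • u)) * cen ((1 : ℝ) • u) := by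
      rw [mul_assoc, cen_mul, ← add_smul]
      congr 3
      push_cast; ring
    have h1 := h (y * cen ((-(k : ℝ)) • u)) (y * cen ((-((k + 1 : ℕ) : ℝ)) • u))
    have h2 : carnotDist (y * cen ((-(k : ℝ)) • u)) (y * cen ((-((k + 1 : ℕ) : ℝ)) • u)) ≤ 3 := by
      rw [e]
      unfold carnotDist
      rw [mul_inv_rev, mul_assoc, inv_mul_cancel, mul_one, carnotLen_inv hn]
      have h2 := len_cen_smul (n := n) hn 1
      rwa [abs_one, Real.sqrt_one, mul_one] at h2
    have h3 := (abs_le.1 h1).2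
    simp only [hg]
    push_cast at h3 h2 ⊢
    have h4 := mul_le_mul_of_nonneg_left h2 (by linarith : (0 : ℝ) ≤ L)
    linarith
  have hneg : ∃ k, g k < 0 := by
    obtain ⟨k, hk⟩ := exists_nat_gt (2 * (l y + 5 * L + 5 * L ^ 2 * 9))
    refine ⟨k, ?_⟩
    have h1 := (abs_le.1 (h (y * cen ((-(k : ℝ)) • u)) y)).2
    rw [hd] at h1
    have h2 := len_cen_smul (n := n) hn (-(k : ℝ))
    rw [abs_neg, abs_of_nonneg (Nat.cast_nonneg k)] at h2
    have h3 := sqrt_le_half (k : ℝ) (Nat.cast_nonneg k) (3 * L) (by positivity)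
    have h4 := mul_le_mul_of_nonneg_left h2 (by linarith : (0 : ℝ) ≤ L)
    have h5 := mul_le_mul_of_nonneg_left h3 (by linarith : (0 : ℝ) ≤ 3 * L)
    have h6 : 3 * L * ((k : ℝ) / (2 * (3 * L)) + 3 * L / 2) = (k : ℝ) / 2 + 9 * L ^ 2 / 2 := by
      field_simp
      ring
    rw [h6] at h5
    simp only [hg]
    have h7 : 0 ≤ L ^ 2 := sq_nonneg L
    nlinarith
  classical
  have hk := Nat.find_spec hneg
  set k := Nat.find hneg with hkdef
  have hk0 : k ≠ 0 := by
    intro h0'
    rw [h0'] at hk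
    simp only [hg] at hk
    have := h0 (y * cen ((-((0 : ℕ) : ℝ)) • u))
    simp at hk this
    linarith
  obtain ⟨j, hj⟩ := Nat.exists_eq_succ_of_ne_zero hk0
  have hj1 : ¬ g j < 0 := Nat.find_min hneg (by omega)
  have hj2 := hstep j
  have hk' : g (j + 1) < 0 := by
    have : k = j + 1 := hj
    rwa [this] at hk
  push Not at hj1
  refine ⟨y * cen ((-(j : ℝ)) • u), ?_⟩
  have e : (twist l (y * cen ((-(j : ℝ)) • u)))⁻¹ * y = (cen (g j • u))⁻¹ := by
    unfold twist
    rw [mul_assoc, cen_mul, ← add_smul]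
    have : (-(j : ℝ)) + l (y * cen ((-(j : ℝ)) • u)) = g j := by simp only [hg]; ring
    rw [this, mul_inv_rev, cen_inv, mul_assoc, inv_mul_cancel, mul_one]
  unfold carnotDist
  rw [e, carnotLen_inv hn]
  refine (len_cen_smul hn (g j)).trans ?_
  rw [abs_of_nonneg hj1]
  have h8 : Real.sqrt (g j) ≤ 3 * L := by
    rw [Real.sqrt_le_left (by positivity)]
    nlinarith
  linarith

/-- transfer to a metric that is large scale equivalent to the Carnot metric -/
lemma qi_of {G : N n → N n} (hn : 1 ≤ n) {K : ℝ} (hK : 2 ≤ K)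
    (hlo : ∀ x y, carnotDist x y / 2 - K ≤ carnotDist (G x) (G y))
    (hup : ∀ x y, carnotDist (G x) (G y) ≤ K * carnotDist x y + K)
    (hsu : ∀ y, ∃ x, carnotDist (G x) y ≤ K)
    (d : N n → N n → ℝ) (hd : LargeScaleEquivalent d) : IsQuasiIsometry d G := by
  obtain ⟨L, A, hL, hA, h0⟩ := hd
  have hLpos : 0 < L := by linarith
  have hKpos : 0 < K := by linarith
  set i : ℝ := 1 / L with hi
  have hiL : i * L = 1 := by rw [hi]; field_simp
  have hipos : 0 < i := by rw [hi]; positivity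
  have hi1 : i ≤ 1 := by rw [hi, div_le_one hLpos]; exact hL
  have hlow : ∀ x y, i * carnotDist x y - A ≤ d x y := by
    intro x y
    have := (h0 x y).1
    rw [div_eq_mul_one_div, mul_comm] at this
    exact this
  have hρ1 : ∀ x y, carnotDist x y ≤ L * (d x y + A) := by
    intro x y
    have h1 := hlow x y
    have h2 : L * (i * carnotDist x y) ≤ L * (d x y + A) := by
      apply mul_le_mul_of_nonneg_left _ hLpos.le
      linarith
    have h3 : L * (i * carnotDist x y) = carnotDist x y := by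
      rw [← mul_assoc, mul_comm L i, hiL, one_mul]
    linarith
  have hρ2 : ∀ x y, i * (d x y - A) ≤ carnotDist x y := by
    intro x y
    have h1 := (h0 x y).2
    have h2 : i * (d x y - A) ≤ i * (L * carnotDist x y) := by
      apply mul_le_mul_of_nonneg_left _ hipos.le
      linarith
    have h3 : i * (L * carnotDist x y) = carnotDist x y := by
      rw [← mul_assoc, hiL, one_mul]
    linarith
  have hdneg : ∀ x y, -A ≤ d x y := by
    intro x y
    have h1 := hlow x y
    have h2 := mul_nonneg hipos.le (dist_nonneg' hn x y)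
    linarith
  have hLL : 1 ≤ L ^ 2 := by nlinarith
  have hLL' : L ≤ L ^ 2 := by nlinarith
  have hKL : 1 ≤ K * L ^ 2 := by nlinarith
  have hq1 : 0 ≤ K * L ^ 2 * A := by positivity
  have hq2 : K ≤ K * L ^ 2 := by nlinarith
  have hq3 : L * K ≤ K * L ^ 2 := by nlinarith
  have hq4 : A ≤ K * L ^ 2 * A := by nlinarith
  refine ⟨K * L ^ 2, 10 * (K * L ^ 2) * (A + 1), hKL, by positivity, ?_, ?_⟩
  · intro x y
    constructor
    · have h1 := hlo x y
      have h2 := hlow (G x) (G y)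
      have h3 := hρ2 x y
      have h4 : i * (i * (d x y - A) / 2 - K) ≤ i * carnotDist (G x) (G y) := by
        apply mul_le_mul_of_nonneg_left _ hipos.le
        linarith
      have h5 : d x y / (K * L ^ 2) = (1 / K) * (i ^ 2 * d x y) := by
        rw [hi]; field_simp
      rw [h5]
      have hii : i ^ 2 ≤ 1 := by nlinarith
      have hii0 : 0 ≤ i ^ 2 := sq_nonneg i
      have h6 : -(i ^ 2 * A) ≤ i ^ 2 * d x y := by
        have := mul_le_mul_of_nonneg_left (hdneg x y) hii0
        linarith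
      have h7 : i ^ 2 * A ≤ A := by nlinarith
      have hK2 : 1 / K ≤ 1 / 2 := one_div_le_one_div_of_le (by norm_num) hK
      have hK3 : 0 < 1 / K := by positivity
      -- `(1/2 - 1/K) (i² d + i² A) ≥ 0`
      have h8 : 0 ≤ (1 / 2 - 1 / K) * (i ^ 2 * d x y + i ^ 2 * A) := by
        apply mul_nonneg <;> linarith
      have h9 : (1 / 2 - 1 / K) * (i ^ 2 * d x y + i ^ 2 * A) =
          (1 / 2) * (i ^ 2 * d x y) - (1 / K) * (i ^ 2 * d x y) + (1 / 2) * (i ^ 2 * A)
            - (1 / K) * (i ^ 2 * A) := by ring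
      have h10 : 0 ≤ (1 / K) * (i ^ 2 * A) := by positivity
      have h11 : i * (i * (d x y - A) / 2 - K) =
          (1 / 2) * (i ^ 2 * d x y) - (1 / 2) * (i ^ 2 * A) - i * K := by ring
      have h12 : i * K ≤ K := by nlinarith
      have h13 : 10 * (K * L ^ 2) * (A + 1) = 10 * (K * L ^ 2 * A) + 10 * (K * L ^ 2) := by ring
      rw [h13]
      linarith
    · have h1 := hup x y
      have h2 := (h0 (G x) (G y)).2
      have h3 := hρ1 x y
      have h4 : L * carnotDist (G x) (G y) ≤ L * (K * (L * (d x y + A)) + K) := by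
        apply mul_le_mul_of_nonneg_left _ hLpos.le
        have := mul_le_mul_of_nonneg_left h3 hKpos.le
        linarith
      have h5 : L * (K * (L * (d x y + A)) + K) =
        K * L ^ 2 * d x y + K * L ^ 2 * A + L * K := by ring
      have h8 : 10 * (K * L ^ 2) * (A + 1) = 10 * (K * L ^ 2 * A) + 10 * (K * L ^ 2) := by ring
      rw [h8]
      linarith
  · intro y
    obtain ⟨x, hx⟩ := hsu y
    refine ⟨x, ?_⟩
    have h1 := (h0 (G x) y).2
    have h2 : L * carnotDist (G x) y ≤ L * K := mul_le_mul_of_nonneg_left hx hLpos.le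
    have h8 : 10 * (K * L ^ 2) * (A + 1) = 10 * (K * L ^ 2 * A) + 10 * (K * L ^ 2) := by ring
    rw [h8]
    linarith

/-- `x ↦ x · exp(l(x) u)` is a quasi-isometry for every nonnegative large scale Lipschitz `l` -/
theorem twist_qi (hn : 1 ≤ n) (d : N n → N n → ℝ) (hd : LargeScaleEquivalent d) {l : N n → ℝ}
    (h0 : ∀ x, 0 ≤ l x) (hl : LSL l) : IsQuasiIsometry d (twist l) := by
  obtain ⟨L, hL, h⟩ := hl.exists_ge hn
  refine qi_of hn (K := 9 * L) (by linarith) (twist_lower hn hL h) ?_ (twist_surj hn hL h0 h) d hd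
  intro x y
  have h1 := twist_upper hn hL h x y
  have h2 : (1 + 3 * L) * carnotDist x y ≤ (9 * L) * carnotDist x y :=
    mul_le_mul_of_nonneg_right (by linarith) (dist_nonneg' hn x y)
  linarith

/-! ### Powers of the distance -/

lemma rpow_le_one_add {t a : ℝ} (ht : 0 ≤ t) (ha : 0 ≤ a) (ha1 : a ≤ 1) : t ^ a ≤ 1 + t := by
  rcases le_total t 1 with h | h
  · have := Real.rpow_le_one ht h ha
    linarith
  · have := Real.rpow_le_rpow_of_exponent_le h ha1
    rw [Real.rpow_one] at this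
    linarith

/-- the power `ρ(x) ^ a` of the Carnot distance to the identity -/
noncomputable def pw (n : ℕ) (a : ℝ) (x : N n) : ℝ := carnotLen x ^ a

lemma pw_nonneg (hn : 1 ≤ n) (a : ℝ) (x : N n) : 0 ≤ pw n a x :=
  Real.rpow_nonneg (carnotLen_nonneg hn x) a

lemma pw_sub (hn : 1 ≤ n) {a : ℝ} (ha : 0 ≤ a) (ha1 : a ≤ 1) (x y : N n) :
    pw n a x - pw n a y ≤ 1 * carnotDist x y + 1 := by
  have h1 := len_sub_le hn x y
  have hx := carnotLen_nonneg hn x
  have hy := carnotLen_nonneg hn y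
  have hd := dist_nonneg' hn x y
  have h2 : carnotLen x ≤ carnotLen y + carnotDist x y := by
    have := (abs_le.1 h1).1
    linarith
  have h3 := Real.rpow_le_rpow hx h2 ha
  have h4 := Real.rpow_add_le_add_rpow hy hd ha ha1
  have h5 := rpow_le_one_add hd ha ha1
  unfold pw
  linarith

lemma dist_symm' (hn : 1 ≤ n) (x y : N n) : carnotDist y x = carnotDist x y := by
  unfold carnotDist
  rw [← carnotLen_inv hn (x⁻¹ * y), mul_inv_rev, inv_inv]

lemma pw_lsl (hn : 1 ≤ n) {a : ℝ} (ha : 0 ≤ a) (ha1 : a ≤ 1) : LSL (pw n a) := by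
  refine ⟨1, 1, fun x y => abs_le.2 ⟨?_, pw_sub hn ha ha1 x y⟩⟩
  have := pw_sub hn ha ha1 y x
  rw [dist_symm' hn] at this
  linarith

/-- comparison of exponents -/
lemma exp_le {P Q : ℝ → ℝ} {b b' c C M s0 α β : ℝ} (hb : 0 < b) (hb' : 0 ≤ b') (hc : 0 < c)
    (hC : 0 ≤ C) (hα : 0 ≤ α) (hβ : 0 ≤ β) (hP : ∀ s, s0 ≤ s → c * s ≤ P s)
    (hQ0 : ∀ s, s0 ≤ s → 0 ≤ Q s) (hQ : ∀ s, s0 ≤ s → Q s ≤ C * s)
    (h : ∀ s, s0 ≤ s → b * P s ^ β ≤ b' * Q s ^ α + M) : β ≤ α := by
  by_contra hlt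
  push Not at hlt
  have ht := (tendsto_rpow_atTop (sub_pos.2 hlt)).eventually_gt_atTop
    ((b' * C ^ α + |M|) / (b * c ^ β))
  obtain ⟨s, hs⟩ := (ht.and (Filter.eventually_ge_atTop (max s0 1))).exists
  obtain ⟨hs1, hs2⟩ := hs
  have hs0 : s0 ≤ s := (le_max_left _ _).trans hs2
  have hs1' : 1 ≤ s := (le_max_right _ _).trans hs2
  have hspos : 0 < s := by linarith
  have h1 : (c * s) ^ β ≤ P s ^ β := Real.rpow_le_rpow (by positivity) (hP s hs0) hβ
  have h2 : Q s ^ α ≤ (C * s) ^ α := Real.rpow_le_rpow (hQ0 s hs0) (hQ s hs0) hα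
  rw [Real.mul_rpow hc.le hspos.le] at h1
  rw [Real.mul_rpow hC hspos.le] at h2
  have h3 := h s hs0
  have h4 : 1 ≤ s ^ α := Real.one_le_rpow hs1' hα
  have h5 : s ^ (β - α) * s ^ α = s ^ β := by
    rw [← Real.rpow_add hspos]; congr 1; ring
  have hcb : 0 < b * c ^ β := by positivity
  rw [div_lt_iff₀ hcb] at hs1
  have h6 : (b' * C ^ α + |M|) * s ^ α < s ^ (β - α) * (b * c ^ β) * s ^ α :=
    mul_lt_mul_of_pos_right hs1 (by positivity)
  have h7 : s ^ (β - α) * (b * c ^ β) * s ^ α = b * (c ^ β * s ^ β) := by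
    rw [← h5]; ring
  rw [h7] at h6
  have h8 : b * (c ^ β * s ^ β) ≤ b * P s ^ β := mul_le_mul_of_nonneg_left h1 hb.le
  have h9 : b' * Q s ^ α ≤ b' * (C ^ α * s ^ α) := mul_le_mul_of_nonneg_left h2 hb'
  have h10 : |M| * 1 ≤ |M| * s ^ α := mul_le_mul_of_nonneg_left h4 (abs_nonneg M)
  have h11 := le_abs_self M
  have h12 : (b' * C ^ α + |M|) * s ^ α = b' * (C ^ α * s ^ α) + |M| * s ^ α := by ring
  rw [h12] at h6
  linarith

/-- the linear part of a generalized affine map on the centre is injective -/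
lemma lin_inj {h : Equiv.Perm (N n)} (hh : h ∈ generalizedAffineGroup n) {B : ImH →ₗ[ℝ] ImH}
    {a : V1 n → V1 n} {c : V1 n → ImH} (hB : ∀ x : N n, h x = ⟨a x.h, B x.c + c x.h⟩) :
    ∀ z, B z = 0 → z = 0 := by
  obtain ⟨B1, a1, c1, hB1⟩ := (fibAff_gen h hh).2
  have key : ∀ z : ImH, B1 (B z + c 0) + c1 (a 0) = z := by
    intro z
    have h1 : (h⁻¹ : Equiv.Perm (N n)) (h (cen z)) = cen z := by
      rw [← Equiv.Perm.mul_apply, inv_mul_cancel, Equiv.Perm.one_apply]
    rw [hB1, hB] at h1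
    have h2 := congrArg N.c h1
    exact h2
  intro z hz
  have h1 := key z
  have h2 := key 0
  rw [hz] at h1
  rw [map_zero] at h2
  rw [← h1, h2]

theorem not_equiv (hn : 1 ≤ n) {α β : ℝ} (hα : 0 ≤ α) (hα1 : α ≤ 1) (hβ : 0 ≤ β) (hβ1 : β ≤ 1)
    {h h' : Equiv.Perm (N n)} (hh : h ∈ generalizedAffineGroup n)
    (hh' : h' ∈ generalizedAffineGroup n) {D : ℝ}
    (hD : ∀ x, carnotDist (twist (pw n α) x) (h (twist (pw n β) (h' x))) ≤ D) : α = β := by
  obtain ⟨B, a, c, hB⟩ := (fibAff_gen h hh).1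
  obtain ⟨B', a', c', hB'⟩ := (fibAff_gen h' hh').1
  have hnp : (0 : ℝ) < n := by exact_mod_cast hn
  have hu : u ≠ 0 := by
    intro h0
    have := norm_u
    rw [h0, norm_zero] at this
    exact zero_ne_one this
  -- notation: `p t` is the length of `h' (cen (t u))`, `q t` that of `cen (t u)`
  set ρ0 : ℝ := carnotLen (h' 1) with hρ0
  have hρ00 : 0 ≤ ρ0 := carnotLen_nonneg hn _
  set p : ℝ → ℝ := fun t => carnotLen (h' (cen (t • u))) with hp
  set q : ℝ → ℝ := fun t => carnotLen (cen (t • u) : N n) with hq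
  have hp0 : ∀ t, 0 ≤ p t := fun t => carnotLen_nonneg hn _
  have hq0 : ∀ t, 0 ≤ q t := fun t => carnotLen_nonneg hn _
  have hfac : ∀ t : ℝ, h' (cen (t • u)) = h' 1 * cen (t • B' u) := by
    intro t
    rw [hB', hB']
    apply N.ext
    · simp [cen]
    · simp only [cen, mul_c, one_c, one_h, bracket_zero_right, smul_zero, add_zero, map_smul,
        map_zero, zero_add]
      rw [add_comm]
  have hlen : ∀ (z : ImH) (t : ℝ), 0 ≤ t →
      carnotLen (cen (t • z) : N n) ≤ 3 * Real.sqrt (t * ‖z‖) := by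
    intro z t ht
    have := carnotLen_cen_le hn (t • z)
    rwa [norm_smul, Real.norm_eq_abs, abs_of_nonneg ht] at this
  have hpu : ∀ t, 0 ≤ t → p t ≤ ρ0 + 3 * Real.sqrt (t * ‖B' u‖) := by
    intro t ht
    have h1 := carnotLen_mul hn (h' 1) (cen (t • B' u))
    rw [← hfac] at h1
    have h2 := hlen (B' u) t ht
    simp only [hp]
    linarith
  have hpl : ∀ t, carnotLen (cen (t • B' u) : N n) - ρ0 ≤ p t := by
    intro t
    have h1 := carnotLen_mul hn (h' 1)⁻¹ (h' (cen (t • u)))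
    rw [hfac, inv_mul_cancel_left, ← hfac, carnotLen_inv hn] at h1
    simp only [hp]
    linarith
  have hqu : ∀ t, 0 ≤ t → q t ≤ 3 * Real.sqrt t := by
    intro t ht
    have := hlen u t ht
    rwa [norm_u, mul_one] at this
  -- the vertical component of the difference on the centre
  set K0 : ImH := B (c' 0) + c (a' 0) with hK0
  have hkey : ∀ t : ℝ, ‖t • (B (B' u) - u) + K0 + (p t ^ β) • B u - (q t ^ α) • u‖
      ≤ (n : ℝ) * D ^ 2 := by
    intro t
    have h1 := hD (cen (t • u))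
    have h2 := norm_c_le hn ((twist (pw n α) (cen (t • u)))⁻¹ *
      h (twist (pw n β) (h' (cen (t • u)))))
    have h3 : ((twist (pw n α) (cen (t • u)))⁻¹ *
        h (twist (pw n β) (h' (cen (t • u))))).c =
        t • (B (B' u) - u) + K0 + (p t ^ β) • B u - (q t ^ α) • u := by
      have e1 : pw n β (h' (cen (t • u))) = p t ^ β := rfl
      have e2 : pw n α (cen (t • u)) = q t ^ α := rfl
      have e3 : (h' (cen (t • u))).h = a' 0 := by rw [hB']; rfl
      have e4 : (h' (cen (t • u))).c = t • B' u + c' 0 := by rw [hB']; simp [cen]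
      have hcc : ∀ z : ImH, (cen z : N n).c = z := fun _ => rfl
      have hch : ∀ z : ImH, (cen z : N n).h = 0 := fun _ => rfl
      rw [hB]
      simp only [twist, e1, e2, mul_c, inv_c, inv_h, mul_h, hcc, hch, e3, e4, add_zero, neg_zero,
        bracket_zero_left, bracket_zero_right, smul_zero, map_add, map_smul, hK0, smul_sub]
      abel
    rw [h3] at h2
    have h4 : (carnotLen ((twist (pw n α) (cen (t • u)))⁻¹ *
        h (twist (pw n β) (h' (cen (t • u)))))) ^ 2 ≤ D ^ 2 :=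
      pow_le_pow_left₀ (carnotLen_nonneg hn _) h1 2
    have h5 := mul_le_mul_of_nonneg_left h4 hnp.le
    linarith
  have hpn : ∀ t, ‖(p t ^ β) • B u‖ = p t ^ β * ‖B u‖ := by
    intro t
    rw [norm_smul, Real.norm_eq_abs, abs_of_nonneg (Real.rpow_nonneg (hp0 t) β)]
  have hqn : ∀ t, ‖(q t ^ α) • u‖ = q t ^ α := by
    intro t
    rw [norm_smul, norm_u, mul_one, Real.norm_eq_abs, abs_of_nonneg (Real.rpow_nonneg (hq0 t) α)]
  -- `B (B' u) = u`
  have hBB : ‖B (B' u) - u‖ = 0 := by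
    apply zero_of_sqrt_growth _ ((n : ℝ) * D ^ 2 + ‖K0‖ + (1 + ρ0) * ‖B u‖ + 1)
      (3 * Real.sqrt ‖B' u‖ * ‖B u‖ + 3) (norm_nonneg _)
    intro t ht
    have ht0 : 0 ≤ t := by linarith
    have h1 := hkey t
    set X : ImH := t • (B (B' u) - u) with hX
    have h2 : X = (X + K0 + (p t ^ β) • B u - (q t ^ α) • u) - K0 - (p t ^ β) • B u
        + (q t ^ α) • u := by abel
    have h3 : ‖X‖ = t * ‖B (B' u) - u‖ := by
      rw [hX, norm_smul, Real.norm_eq_abs, abs_of_nonneg ht0]
    have h4 := norm_add_le ((X + K0 + (p t ^ β) • B u - (q t ^ α) • u) - K0 - (p t ^ β) • B u)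
      ((q t ^ α) • u)
    have h5 := norm_sub_le ((X + K0 + (p t ^ β) • B u - (q t ^ α) • u) - K0) ((p t ^ β) • B u)
    have h6 := norm_sub_le (X + K0 + (p t ^ β) • B u - (q t ^ α) • u) K0
    rw [← h2, h3, hqn] at h4
    rw [hpn] at h5
    have h7 := rpow_le_one_add (hp0 t) hβ hβ1
    have h8 := rpow_le_one_add (hq0 t) hα hα1
    have h9 := hpu t ht0
    have h10 := hqu t ht0
    rw [Real.sqrt_mul ht0] at h9
    have h11 : p t ^ β * ‖B u‖ ≤ (1 + (ρ0 + 3 * (Real.sqrt t * Real.sqrt ‖B' u‖))) * ‖B u‖ :=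
      mul_le_mul_of_nonneg_right (by linarith) (norm_nonneg _)
    have h12 : (1 + (ρ0 + 3 * (Real.sqrt t * Real.sqrt ‖B' u‖))) * ‖B u‖ =
        (1 + ρ0) * ‖B u‖ + 3 * Real.sqrt ‖B' u‖ * ‖B u‖ * Real.sqrt t := by ring
    rw [h12] at h11
    linarith
  have hX0 : B (B' u) - u = 0 := norm_eq_zero.1 hBB
  have hB'u : B' u ≠ 0 := fun h0 => hu (lin_inj hh' hB' u h0)
  have hBu : B u ≠ 0 := fun h0 => hu (lin_inj hh hB u h0)
  have hb1 : 0 < Real.sqrt ‖B' u‖ := Real.sqrt_pos.2 (norm_pos_iff.2 hB'u)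
  set b1 : ℝ := Real.sqrt ‖B' u‖ with hb1d
  set m : ℝ := Real.sqrt n with hm
  have hm0 : 0 < m := Real.sqrt_pos.2 hnp
  -- lower bounds for the lengths of central elements
  have hlow : ∀ (z : ImH) (s : ℝ), 0 ≤ s → s * Real.sqrt ‖z‖ / m ≤
      carnotLen (cen ((s ^ 2) • z) : N n) := by
    intro z s hs
    have h1 := norm_c_le hn (cen ((s ^ 2) • z) : N n)
    have h2 : ‖(cen ((s ^ 2) • z) : N n).c‖ = s ^ 2 * ‖z‖ := by
      show ‖(s ^ 2) • z‖ = _
      rw [norm_smul, Real.norm_eq_abs, abs_of_nonneg (by positivity)]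
    rw [h2] at h1
    rw [div_le_iff₀ hm0]
    apply le_of_sq_le_sq _ (mul_nonneg (carnotLen_nonneg hn _) hm0.le)
    rw [mul_pow, mul_pow, Real.sq_sqrt (norm_nonneg z), hm, Real.sq_sqrt hnp.le]
    linarith
  set s0 : ℝ := max 1 (ρ0 / (b1 / (2 * m))) with hs0
  have hs01 : ∀ s, s0 ≤ s → 1 ≤ s := fun s hs => (le_max_left _ _).trans hs
  have hcpos : 0 < b1 / (2 * m) := by positivity
  have hs02 : ∀ s, s0 ≤ s → ρ0 ≤ b1 / (2 * m) * s := by
    intro s hs
    have h1 : ρ0 / (b1 / (2 * m)) ≤ s := (le_max_right _ _).trans hs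
    rw [div_le_iff₀ hcpos] at h1
    linarith
  have hP1 : ∀ s, s0 ≤ s → b1 / (2 * m) * s ≤ p (s ^ 2) := by
    intro s hs
    have h1 := hlow (B' u) s (by linarith [hs01 s hs])
    have h2 := hpl (s ^ 2)
    have h3 := hs02 s hs
    have h4 : s * b1 / m = 2 * (b1 / (2 * m) * s) := by field_simp
    rw [← hb1d, h4] at h1
    linarith
  have hP2 : ∀ s, s0 ≤ s → p (s ^ 2) ≤ (ρ0 + 3 * b1) * s := by
    intro s hs
    have h1 := hs01 s hs
    have h2 := hpu (s ^ 2) (by positivity)
    rw [Real.sqrt_mul (by positivity), Real.sqrt_sq (by linarith), ← hb1d] at h2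
    have h3 : ρ0 * 1 ≤ ρ0 * s := mul_le_mul_of_nonneg_left h1 hρ00
    nlinarith
  have hQ1 : ∀ s, s0 ≤ s → 1 / m * s ≤ q (s ^ 2) := by
    intro s hs
    have h1 := hlow u s (by linarith [hs01 s hs])
    rw [norm_u, Real.sqrt_one, mul_one] at h1
    have h4 : s / m = 1 / m * s := by ring
    rw [h4] at h1
    exact h1
  have hQ2 : ∀ s, s0 ≤ s → q (s ^ 2) ≤ 3 * s := by
    intro s hs
    have h2 := hqu (s ^ 2) (by positivity)
    rwa [Real.sqrt_sq (by linarith [hs01 s hs])] at h2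
  -- the two inequalities
  have hI : ∀ t : ℝ, ‖K0 + (p t ^ β) • B u - (q t ^ α) • u‖ ≤ (n : ℝ) * D ^ 2 := by
    intro t
    have := hkey t
    rwa [hX0, smul_zero, zero_add] at this
  have hI1 : ∀ t : ℝ, ‖B u‖ * p t ^ β ≤ 1 * q t ^ α + (‖K0‖ + (n : ℝ) * D ^ 2) := by
    intro t
    have h1 : (p t ^ β) • B u = (K0 + (p t ^ β) • B u - (q t ^ α) • u) - K0 + (q t ^ α) • u := by
      abel
    have h2 := norm_add_le ((K0 + (p t ^ β) • B u - (q t ^ α) • u) - K0) ((q t ^ α) • u)
    have h3 := norm_sub_le (K0 + (p t ^ β) • B u - (q t ^ α) • u) K0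
    rw [← h1, hpn, hqn] at h2
    have h4 := hI t
    linarith
  have hI2 : ∀ t : ℝ, 1 * q t ^ α ≤ ‖B u‖ * p t ^ β + (‖K0‖ + (n : ℝ) * D ^ 2) := by
    intro t
    have h1 : (q t ^ α) • u = K0 + (p t ^ β) • B u - (K0 + (p t ^ β) • B u - (q t ^ α) • u) := by
      abel
    have h2 := norm_sub_le (K0 + (p t ^ β) • B u) (K0 + (p t ^ β) • B u - (q t ^ α) • u)
    have h3 := norm_add_le K0 ((p t ^ β) • B u)
    rw [← h1, hqn] at h2
    rw [hpn] at h3
    have h4 := hI t
    linarith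
  apply le_antisymm
  · exact exp_le (P := fun s => q (s ^ 2)) (Q := fun s => p (s ^ 2)) (s0 := s0) one_pos
      (norm_nonneg (B u)) (by positivity : 0 < 1 / m) (by positivity : 0 ≤ ρ0 + 3 * b1) hβ hα
      hQ1 (fun s _ => hp0 _) hP2 (fun s _ => hI2 _)
  · exact exp_le (P := fun s => p (s ^ 2)) (Q := fun s => q (s ^ 2)) (s0 := s0)
      (norm_pos_iff.2 hBu) zero_le_one hcpos (by norm_num : (0 : ℝ) ≤ 3) hα hβ
      hP1 (fun s _ => hq0 _) hQ2 (fun s _ => hI1 _)

lemma twist_zero_mem :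
    ∃ g ∈ generalizedAffineGroup n, ∀ x, g x = twist (pw n 0) x := by
  refine ⟨Equiv.mulLeft (cen u), ?_, fun x => ?_⟩
  · apply Subgroup.subset_closure
    left
    exact Subgroup.subset_closure (Or.inl ⟨cen u, rfl⟩)
  · show cen u * x = x * cen (carnotLen x ^ (0 : ℝ) • u)
    rw [Real.rpow_zero, one_smul, cen_comm]

/-- **Main theorem.** Let `N` be the quaternionic Heisenberg group of dimension `4 n + 3`, with the
Carnot metric or any metric `d` that is large scale equivalent to it.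

(1) For every nonnegative function `l` on `N` that is large scale Lipschitz the map
`x ↦ x · exp(l(x) u)` is a quasi-isometry.

(2) There is a family of quasi-isometries `Φ_a`, `0 < a ≤ 1`, such that `Φ_a` is at infinite
distance from `h ∘ Φ_b ∘ h'` for all `a ≠ b` and all generalized affine maps `h`, `h'`, and from
every generalized affine map (this is the full answer to the question). So there are continuum many
double cosets of the group of generalized affine maps in the group of quasi-isometries. -/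
theorem result (n : ℕ) (hn : 1 ≤ n) (d : N n → N n → ℝ) (hd : LargeScaleEquivalent d) :
    (∀ l : N n → ℝ, (∀ x, 0 ≤ l x) → LSL l → IsQuasiIsometry d (twist l)) ∧
    ∃ Φ : ℝ → N n → N n,
      (∀ a, 0 < a → a ≤ 1 → IsQuasiIsometry d (Φ a)) ∧
      (∀ a b, 0 < a → a ≤ 1 → 0 < b → b ≤ 1 → a ≠ b →
        ∀ h ∈ generalizedAffineGroup n, ∀ h' ∈ generalizedAffineGroup n,
          ¬ FiniteDistance d (Φ a) (fun x => h (Φ b (h' x)))) ∧
      (∀ a, 0 < a → a ≤ 1 → ∀ h ∈ generalizedAffineGroup n, ¬ FiniteDistance d (Φ a) h) := by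
  refine ⟨fun l h0 hl => twist_qi hn d hd h0 hl, fun a => twist (pw n a),
    fun a ha ha1 => twist_qi hn d hd (pw_nonneg hn a) (pw_lsl hn ha.le ha1), ?_, ?_⟩
  all_goals
    obtain ⟨L, A, hL, hA, h0⟩ := hd
    have hLpos : 0 < L := by linarith
    have hconv : ∀ x y C, d x y ≤ C → carnotDist x y ≤ (C + A) * L := by
      intro x y C hC
      have h1 := (h0 x y).1
      have h3 : carnotDist x y / L ≤ C + A := by linarith
      rwa [div_le_iff₀ hLpos] at h3
  · rintro a b ha ha1 hb hb1 hab h hh h' hh' ⟨C, hC⟩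
    exact hab (not_equiv hn ha.le ha1 hb.le hb1 hh hh' fun x => hconv _ _ C (hC x))
  · rintro a ha ha1 h hh ⟨C, hC⟩
    obtain ⟨g, hg, hg'⟩ := twist_zero_mem (n := n)
    refine ha.ne' (not_equiv hn ha.le ha1 le_rfl zero_le_one
      (mul_mem hh (inv_mem hg)) (one_mem _) (D := (C + A) * L) fun x => ?_)
    rw [Equiv.Perm.one_apply, ← hg', Equiv.Perm.mul_apply, ← Equiv.Perm.mul_apply g⁻¹ g,
      inv_mul_cancel, Equiv.Perm.one_apply]
    exact hconv _ _ C (hC x)

end Pool.Agent.Results.MP_afcf00_al.DoubleCosets
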